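import Mathlib
import Pool.Agent.N261.HE.Mono
import Pool.Agent.N261.HE.Global

set_option autoImplicit false

/-!
# The double-eigenvalue locus of special double confluent Heun equations is the smallest analytic
# subset of `ℂ³` containing its real points with `λ + μ² > 0`
-/

open Complex

namespace Pool.Agent.Results.MP_d1051d_an.SmallestAnalyticSet

open Pool.Agent.N261.HE (Sol monodromy)

/-- `Z` is a complex analytic subset of `ℂ³`: near every point `a` of `ℂ³` it is the common zero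
set of finitely many analytic functions. -/
def IsAnalyticSubset (Z : Set (ℂ × ℂ × ℂ)) : Prop :=
  ∀ a : ℂ × ℂ × ℂ, ∃ U : Set (ℂ × ℂ × ℂ), IsOpen U ∧ a ∈ U ∧
    ∃ (k : ℕ) (g : Fin k → ℂ × ℂ × ℂ → ℂ), (∀ i, AnalyticOnNhd ℂ (g i) U) ∧
      Z ∩ U = {q ∈ U | ∀ i, g i q = 0}

/-- the locus `Σ̃` of the parameters `(l, λ, μ)` for which the characteristic polynomial of the
monodromy operator has a multiple root -/
def SigmaTilde : Set (ℂ × ℂ × ℂ) :=
  {p | ∃ _ : Module.Finite ℂ (Sol p.1 p.2.1 p.2.2), ∃ c : ℂ,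
    2 ≤ (monodromy p.1 p.2.1 p.2.2).charpoly.rootMultiplicity c}

/-- the real points `(l, λ, μ)` of `Σ̃` with `λ + μ² > 0` -/
def realPoints : Set (ℂ × ℂ × ℂ) :=
  {p | ∃ l lam mu : ℝ, p = ((l : ℂ), (lam : ℂ), (mu : ℂ)) ∧ 0 < lam + mu ^ 2 ∧ p ∈ SigmaTilde}

theorem result :
    (∀ l lam mu : ℂ, Module.finrank ℂ (Sol l lam mu) = 2) ∧
      IsLeast {Z | IsAnalyticSubset Z ∧ realPoints ⊆ Z} SigmaTilde := by
  have hiff : ∀ p : ℂ × ℂ × ℂ, p ∈ SigmaTilde ↔ Pool.Agent.N261.HE.FF p = 0 := by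
    rintro ⟨l, lam, mu⟩
    constructor
    · rintro ⟨_, h⟩
      exact (Pool.Agent.N261.HE.double_iff l lam mu).1 h
    · intro h
      have hfin := Pool.Agent.N261.HE.finite_sol l lam mu
      exact ⟨hfin, (Pool.Agent.N261.HE.double_iff l lam mu).2 h⟩
  refine ⟨Pool.Agent.N261.HE.finrank_sol, ⟨?_, ?_⟩, ?_⟩
  · intro a
    refine ⟨Set.univ, isOpen_univ, Set.mem_univ a, 1, fun _ => Pool.Agent.N261.HE.FF, ?_, ?_⟩
    · intro _ q _
      exact Pool.Agent.N261.HE.FF_analytic q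
    · ext q
      simp only [Set.inter_univ, Set.mem_univ, true_and]
      rw [hiff]
      exact ⟨fun h _ => h, fun h => h 0⟩
  · rintro p ⟨l, lam, mu, -, -, hp⟩
    exact hp
  · rintro Z ⟨hZ, hreal⟩ q hq
    apply Pool.Agent.N261.HE.global hZ _ q ((hiff q).1 hq)
    intro l lam mu hpos hF
    exact hreal ⟨l, lam, mu, rfl, hpos, (hiff _).2 hF⟩

end Pool.Agent.Results.MP_d1051d_an.SmallestAnalyticSet
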